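import Pool.Agent.Lib.helper29.Ball3
import Pool.Agent.Lib.helper29.Ball4

open Set Metric InnerProductSpace Filter Topology
open Pool.Agent.Lib.H29.Ball3 Pool.Agent.Lib.H29.Ball4

namespace Pool.Agent.Results.MP_1096cc_an.Dichotomy

/-- `‖u‖_s`, the supremum of `|u|` over the open ball `B(0,s)` of `ℝ^n`. -/
noncomputable def supN {n : ℕ} (u : EuclideanSpace ℝ (Fin n) → ℂ) (s : ℝ) : ℝ :=
  sSup ((fun x => ‖u x‖) '' ball 0 s)

/-- The class `H`: complex-valued harmonic functions on the open unit ball of `ℝ^n` whose modulus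
has least upper bound `1` there. -/
def InH {n : ℕ} (u : EuclideanSpace ℝ (Fin n) → ℂ) : Prop :=
  HarmonicOnNhd u (ball 0 1) ∧ IsLUB ((fun x => ‖u x‖) '' ball 0 1) 1

theorem plane (ρ r : ℝ) (hρ : 0 < ρ) (hρr : ρ < r) (hr : r < 1) :
    ∃ K : ℝ, ∀ u : EuclideanSpace ℝ (Fin 2) → ℂ, InH u →
      supN u r ≤ K * supN u ρ ^ (Real.log r / Real.log ρ) := by
  obtain ⟨K, hK0, hK⟩ := real_case hρ hρr hr
  refine ⟨2 * K, fun u hu => ?_⟩
  let g : ℂ ≃ₗᵢ[ℝ] EuclideanSpace ℝ (Fin 2) := Complex.orthonormalBasisOneI.repr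
  have hρ1 : ρ < 1 := hρr.trans hr
  have h1 : ∀ x, ‖x‖ < 1 → ‖u x‖ ≤ 1 := fun x hx => hu.2.1 ⟨x, mem_ball_zero_iff.mpr hx, rfl⟩
  have hb : BddAbove ((fun x => ‖u x‖) '' ball 0 ρ) := by
    refine ⟨1, ?_⟩
    rintro _ ⟨x, hx, rfl⟩
    exact h1 x ((mem_ball_zero_iff.mp hx).trans hρ1)
  have hε : ∀ x, ‖x‖ < ρ → ‖u x‖ ≤ supN u ρ := fun x hx =>
    le_csSup hb ⟨x, mem_ball_zero_iff.mpr hx, rfl⟩
  have hε1 : supN u ρ ≤ 1 := by
    refine csSup_le ((nonempty_ball.mpr hρ).image _) ?_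
    rintro _ ⟨x, hx, rfl⟩
    exact h1 x ((mem_ball_zero_iff.mp hx).trans hρ1)
  have hh : HarmonicOnNhd (u ∘ g) (ball 0 1) := fun z hz =>
    harm_comp g (hu.1 _ (by simpa using hz))
  have hre := hK (supN u ρ) _ hε1 (hh.comp_CLM Complex.reCLM)
    (fun z hz => (Complex.abs_re_le_norm _).trans (h1 (g z) (by simpa using hz)))
    (fun z hz => (Complex.abs_re_le_norm _).trans (hε (g z) (by simpa using hz)))
  have him := hK (supN u ρ) _ hε1 (hh.comp_CLM Complex.imCLM)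
    (fun z hz => (Complex.abs_im_le_norm _).trans (h1 (g z) (by simpa using hz)))
    (fun z hz => (Complex.abs_im_le_norm _).trans (hε (g z) (by simpa using hz)))
  refine csSup_le ((nonempty_ball.mpr (hρ.trans hρr)).image _) ?_
  rintro _ ⟨x, hx, rfl⟩
  have hx' : ‖g.symm x‖ < r := by simpa using hx
  have a := hre _ hx'
  have b := him _ hx'
  simp only [Function.comp_apply, LinearIsometryEquiv.apply_symm_apply, Complex.reCLM_apply,
    Complex.imCLM_apply] at a b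
  have := Complex.norm_le_abs_re_add_abs_im (u x)
  simp only
  linarith

/-- isotropic linear forms on `ℝ^(m+3)` -/
noncomputable def ll (m j : ℕ) : EuclideanSpace ℝ (Fin (m + 3)) →L[ℝ] ℂ :=
  Complex.ofRealCLM.comp (EuclideanSpace.proj 0) + Complex.I •
    Complex.ofRealCLM.comp (ca j • EuclideanSpace.proj 1 + cb j • EuclideanSpace.proj 2)

lemma ll_apply (m j : ℕ) (x : EuclideanSpace ℝ (Fin (m + 3))) :
    ll m j x = ww j (x 0) (x 1) (x 2) := by
  simp [ll, ww]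
  ring

lemma mod2 (m : ℕ) : 2 % (m + 3) = 2 := Nat.mod_eq_of_lt (by omega)

lemma ll_iso (m j : ℕ) : ∑ i, ll m j (EuclideanSpace.basisFun (Fin (m + 3)) ℝ i) ^ 2 = 0 := by
  rw [Fin.sum_univ_succ, Fin.sum_univ_succ, Fin.sum_univ_succ]
  have h0 : ∀ i : Fin m, ll m j (EuclideanSpace.basisFun (Fin (m + 3)) ℝ i.succ.succ.succ) = 0 := by
    intro i
    have a : (0 : Fin (m + 3)) ≠ i.succ.succ.succ := by simp [Fin.ext_iff]
    have b : (1 : Fin (m + 3)) ≠ i.succ.succ.succ := by simp [Fin.ext_iff]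
    have c : (2 : Fin (m + 3)) ≠ i.succ.succ.succ := by
      intro h
      have := congrArg Fin.val h
      simp [mod2] at this
    simp [ll_apply, ww, a, b, c]
  have a : (1 : Fin (m + 3)) ≠ 2 := by simp [Fin.ext_iff, mod2]
  have b : (0 : Fin (m + 3)) ≠ 2 := by simp [Fin.ext_iff, mod2]
  have h := congrArg (fun t : ℝ => (t : ℂ)) (cab j)
  push_cast at h
  simp only [h0, Finset.sum_const_zero, ne_eq, OfNat.ofNat_ne_zero, not_false_eq_true, zero_pow]
  simp [ll_apply, ww, a, b, a.symm, b.symm, mul_pow]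
  linear_combination -h

lemma sq3 (m : ℕ) (x : EuclideanSpace ℝ (Fin (m + 3))) :
    x 0 ^ 2 + x 1 ^ 2 + x 2 ^ 2 ≤ ‖x‖ ^ 2 := by
  rw [EuclideanSpace.real_norm_sq_eq, Fin.sum_univ_succ, Fin.sum_univ_succ, Fin.sum_univ_succ]
  have : 0 ≤ ∑ i : Fin m, x i.succ.succ.succ ^ 2 := Finset.sum_nonneg fun i _ => sq_nonneg _
  simp only [Fin.succ_zero_eq_one, Fin.succ_one_eq_two]
  linarith

lemma harm_sum {n : ℕ} (s : Finset ℕ) (f : ℕ → EuclideanSpace ℝ (Fin n) → ℂ)
    (x : EuclideanSpace ℝ (Fin n)) (h : ∀ j, HarmonicAt (f j) x) :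
    HarmonicAt (fun y => ∑ j ∈ s, f j y) x := by
  induction s using Finset.induction_on with
  | empty => simp
  | insert a s ha ih =>
    simp only [Finset.sum_insert ha]
    exact (h a).add ih

theorem higher (m : ℕ) (ρ r : ℝ) (hρ : 0 < ρ) (hρr : ρ < r) (hr : r < 1) (K : ℝ) :
    ∃ u : EuclideanSpace ℝ (Fin (m + 3)) → ℂ, InH u ∧
      K * supN u ρ ^ (Real.log r / Real.log ρ) < supN u r := by
  set β := Real.log r / Real.log ρ with hβ
  have hr0 : 0 < r := hρ.trans hρr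
  have hρ1 : ρ < 1 := hρr.trans hr
  have hl : Real.log ρ < 0 := Real.log_neg hρ hρ1
  have hβ0 : 0 < β := div_pos_of_neg_of_neg (Real.log_neg hr0 hr) hl
  have hβ1 : β ≤ 1 := by
    rw [hβ, div_le_one_of_neg hl]
    exact Real.log_le_log hρ hρr.le
  have hpow : ρ ^ β = r := by
    rw [Real.rpow_def_of_pos hρ, hβ, mul_div_cancel₀ _ hl.ne, Real.exp_log hr0]
  set c0 := (1 - r ^ 2) * (r ^ 2 - ρ ^ 2) with hc0
  have hc : 0 < c0 := mul_pos (by nlinarith) (by nlinarith)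
  set K' := |K| + 1 with hK'
  have hK0 : 0 < K' := by positivity
  obtain ⟨N, k, hN, hkey⟩ := key (η := c0 / (4 * K')) (by positivity)
  set η := c0 / (4 * K') with hη
  have hN' : (0 : ℝ) < N := by exact_mod_cast hN
  let f : ℂ → ℂ := fun w => w ^ k * (1 - w ^ 2) * (((ρ ^ 2 : ℝ) : ℂ) - w ^ 2)
  let u : EuclideanSpace ℝ (Fin (m + 3)) → ℂ := fun x => ∑ j ∈ Finset.range N, (f ∘ ll m j) x
  have hu : ∀ x, HarmonicAt u x := fun x =>
    harm_sum _ _ x fun j => harm_iso _ (ll_iso m j) (by fun_prop) x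
  have hb1 : ∀ x, ‖x‖ < 1 → ‖u x‖ ≤ 2 * η * N := by
    intro x hx
    have h3 : x 0 ^ 2 + x 1 ^ 2 + x 2 ^ 2 ≤ 1 :=
      (sq3 m x).trans (pow_le_one₀ (norm_nonneg _) hx.le)
    refine (norm_sum_le _ _).trans ?_
    calc _ ≤ ∑ j ∈ Finset.range N, 2 * ‖ww j (x 0) (x 1) (x 2) ^ k *
          (1 - ww j (x 0) (x 1) (x 2) ^ 2)‖ := by
          refine Finset.sum_le_sum fun j _ => ?_
          simp only [Function.comp_apply, f, ll_apply]
          rw [norm_mul, mul_comm]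
          gcongr
          exact two_le (by positivity) (by nlinarith) (ww_le j h3)
      _ ≤ _ := by
          rw [← Finset.mul_sum]
          have := hkey _ _ _ h3
          linarith
  have hbρ : ∀ x, ‖x‖ < ρ → ‖u x‖ ≤ ρ ^ k * (2 * η * N) := by
    intro x hx
    have h2 : x 0 ^ 2 + x 1 ^ 2 + x 2 ^ 2 ≤ ρ ^ 2 :=
      (sq3 m x).trans (pow_le_pow_left₀ (norm_nonneg _) hx.le 2)
    have h3 : (x 0 / ρ) ^ 2 + (x 1 / ρ) ^ 2 + (x 2 / ρ) ^ 2 ≤ 1 := by
      rw [div_pow, div_pow, div_pow, ← add_div, ← add_div, div_le_one (by positivity)]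
      exact h2
    have h4 : x 0 ^ 2 + x 1 ^ 2 + x 2 ^ 2 ≤ 1 := h2.trans (by nlinarith)
    have e : ∀ j, ww j (x 0) (x 1) (x 2) = ρ * ww j (x 0 / ρ) (x 1 / ρ) (x 2 / ρ) := by
      intro j
      have : (ρ : ℂ) ≠ 0 := by exact_mod_cast hρ.ne'
      unfold ww
      push_cast
      field_simp
    refine (norm_sum_le _ _).trans ?_
    calc _ ≤ ∑ j ∈ Finset.range N, ρ ^ k * 2 * ‖ww j (x 0 / ρ) (x 1 / ρ) (x 2 / ρ) ^ k *
          (1 - ww j (x 0 / ρ) (x 1 / ρ) (x 2 / ρ) ^ 2)‖ := by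
          refine Finset.sum_le_sum fun j _ => ?_
          simp only [Function.comp_apply, f, ll_apply]
          have h5 := two_le zero_le_one le_rfl (ww_le j h4)
          rw [Complex.ofReal_one] at h5
          generalize hw : ww j (x 0) (x 1) (x 2) = w at h5
          have e1 := e j
          rw [hw] at e1
          generalize ww j (x 0 / ρ) (x 1 / ρ) (x 2 / ρ) = v at e1
          have e2 : w ^ k * (1 - w ^ 2) * (((ρ ^ 2 : ℝ) : ℂ) - w ^ 2) =
              ((ρ ^ k : ℝ) : ℂ) * (((ρ ^ 2 : ℝ) : ℂ) * (1 - w ^ 2)) * (v ^ k * (1 - v ^ 2)) := by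
            generalize 1 - w ^ 2 = t
            rw [e1]
            push_cast
            ring
          rw [e2, norm_mul, norm_mul, norm_mul, Complex.norm_real, Complex.norm_real,
            Real.norm_of_nonneg (by positivity), Real.norm_of_nonneg (by positivity)]
          gcongr
          have : ρ ^ 2 ≤ 1 := by nlinarith
          have := mul_le_mul this h5 (norm_nonneg _) zero_le_one
          linarith
      _ ≤ _ := by
          rw [← Finset.mul_sum, mul_assoc, mul_assoc]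
          have := hkey _ _ _ h3
          gcongr
  have hval : ∀ s : ℝ, ‖u (EuclideanSpace.single 0 s)‖ =
      |N * (s ^ k * (1 - s ^ 2) * (ρ ^ 2 - s ^ 2))| := by
    intro s
    have b : (2 : Fin (m + 3)) ≠ 0 := by simp [Fin.ext_iff, mod2]
    have : u (EuclideanSpace.single 0 s) =
        ((N * (s ^ k * (1 - s ^ 2) * (ρ ^ 2 - s ^ 2)) : ℝ) : ℂ) := by
      simp [u, f, ll_apply, ww, b]
    rw [this, Complex.norm_real, Real.norm_eq_abs]
  have hvr : ‖u (EuclideanSpace.single 0 r)‖ = N * (r ^ k * c0) := by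
    rw [hval, ← abs_neg, show -(N * (r ^ k * (1 - r ^ 2) * (ρ ^ 2 - r ^ 2))) = N * (r ^ k * c0) by
      rw [hc0]; ring, abs_of_pos (by positivity)]
  have hbdd : BddAbove ((fun x => ‖u x‖) '' ball 0 1) := by
    refine ⟨2 * η * N, ?_⟩
    rintro _ ⟨x, hx, rfl⟩
    exact hb1 x (mem_ball_zero_iff.mp hx)
  have hne : ((fun x => ‖u x‖) '' ball 0 1).Nonempty := (nonempty_ball.mpr one_pos).image _
  have hM := isLUB_csSup hne hbdd
  set M := sSup ((fun x => ‖u x‖) '' ball 0 1) with hMdef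
  have hM0 : 0 < M := by
    refine lt_of_lt_of_le ?_ (hM.1 ⟨EuclideanSpace.single 0 r, ?_, rfl⟩)
    · simp only [hvr]
      positivity
    · simp [abs_of_pos hr0, hr]
  have hMA : M ≤ 2 * η * N := by
    refine hM.2 ?_
    rintro _ ⟨x, hx, rfl⟩
    exact hb1 x (mem_ball_zero_iff.mp hx)
  have hnv : ∀ x, ‖(M⁻¹ • u) x‖ = M⁻¹ * ‖u x‖ := by
    intro x
    rw [Pi.smul_apply, norm_smul, Real.norm_of_nonneg (by positivity)]
  refine ⟨M⁻¹ • u, ⟨fun x _ => (hu x).const_smul, ?_, ?_⟩, ?_⟩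
  · rintro _ ⟨x, hx, rfl⟩
    simp only [hnv]
    rw [inv_mul_le_iff₀ hM0, mul_one]
    exact hM.1 ⟨x, hx, rfl⟩
  · intro b hb
    have : M ≤ M * b := by
      refine hM.2 ?_
      rintro _ ⟨x, hx, rfl⟩
      have := hb ⟨x, hx, rfl⟩
      simp only [hnv] at this
      rwa [inv_mul_le_iff₀ hM0] at this
    nlinarith
  · have h1 : supN (M⁻¹ • u) ρ ≤ ρ ^ k * (2 * η * N / M) := by
      refine csSup_le ((nonempty_ball.mpr hρ).image _) ?_
      rintro _ ⟨x, hx, rfl⟩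
      simp only [hnv]
      calc M⁻¹ * ‖u x‖ ≤ M⁻¹ * (ρ ^ k * (2 * η * N)) := by
            gcongr
            exact hbρ x (mem_ball_zero_iff.mp hx)
        _ = _ := by ring
    have h0 : 0 ≤ supN (M⁻¹ • u) ρ := by
      refine Real.sSup_nonneg ?_
      rintro _ ⟨x, hx, rfl⟩
      exact norm_nonneg _
    have h2 : supN (M⁻¹ • u) ρ ^ β ≤ r ^ k * (2 * η * N / M) := by
      refine (Real.rpow_le_rpow h0 h1 hβ0.le).trans ?_
      rw [Real.mul_rpow (by positivity) (by positivity), ← Real.rpow_natCast,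
        ← Real.rpow_mul hρ.le, mul_comm (k : ℝ), Real.rpow_mul hρ.le, hpow, Real.rpow_natCast]
      gcongr
      have h3 : 1 ≤ 2 * η * N / M := (one_le_div hM0).mpr hMA
      simpa using Real.rpow_le_rpow_of_exponent_le h3 hβ1
    have h3 : M⁻¹ * (N * (r ^ k * c0)) ≤ supN (M⁻¹ • u) r := by
      have hb : BddAbove ((fun x => ‖(M⁻¹ • u) x‖) '' ball 0 r) := by
        refine ⟨M⁻¹ * (2 * η * N), ?_⟩
        rintro _ ⟨x, hx, rfl⟩
        simp only [hnv]
        gcongr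
        exact hb1 x ((mem_ball_zero_iff.mp hx).trans hr)
      have ht : Tendsto (fun s : ℝ => M⁻¹ * |N * (s ^ k * (1 - s ^ 2) * (ρ ^ 2 - s ^ 2))|)
          (𝓝[<] r) (𝓝 (M⁻¹ * |N * (r ^ k * (1 - r ^ 2) * (ρ ^ 2 - r ^ 2))|)) :=
        (Continuous.tendsto (by fun_prop) r).mono_left nhdsWithin_le_nhds
      rw [← hval r, hvr] at ht
      refine le_of_tendsto ht ?_
      filter_upwards [Ioo_mem_nhdsLT hr0] with s hs
      rw [← hval, ← hnv]
      refine le_csSup hb ⟨EuclideanSpace.single 0 s, ?_, rfl⟩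
      simp [abs_of_pos hs.1, hs.2]
    refine lt_of_lt_of_le ?_ h3
    calc K * supN (M⁻¹ • u) ρ ^ β ≤ K' * (r ^ k * (2 * η * N / M)) := by
          refine mul_le_mul ?_ h2 (by positivity) hK0.le
          have := le_abs_self K
          linarith
      _ = M⁻¹ * (N * (r ^ k * c0)) / 2 := by
          rw [hη]
          field_simp
          norm_num
      _ < _ := half_lt_self (by positivity)

theorem result (n : ℕ) (hn : 2 ≤ n) (ρ r : ℝ) (hρ : 0 < ρ) (hρr : ρ < r) (hr : r < 1) :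
    (∃ K : ℝ, ∀ u : EuclideanSpace ℝ (Fin n) → ℂ, InH u →
      supN u r ≤ K * supN u ρ ^ (Real.log r / Real.log ρ)) ↔ n = 2 := by
  constructor
  · rintro ⟨K, hK⟩
    by_contra h
    obtain ⟨m, rfl⟩ : ∃ m, n = m + 3 := ⟨n - 3, by omega⟩
    obtain ⟨u, hu, hlt⟩ := higher m ρ r hρ hρr hr K
    exact absurd (hK u hu) (not_le.mpr hlt)
  · rintro rfl
    exact plane ρ r hρ hρr hr

end Pool.Agent.Results.MP_1096cc_an.Dichotomy
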